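import Pool.Agent.W345.VO.Stm

set_option autoImplicit false

/-! Project VO: small weight spaces. -/

namespace Pool.Agent.W685.VO

open MvPolynomial Pool.Agent.W345.VO

/-- the weight of a monomial -/
noncomputable def wW (s : ℕ →₀ ℕ) : ℕ := s.sum (fun i n => n * (i + 1))

theorem wW_zero : wW 0 = 0 := Finsupp.sum_zero_index

theorem wW_add (s t : ℕ →₀ ℕ) : wW (s + t) = wW s + wW t := by
  unfold wW
  refine Finsupp.sum_add_index' (fun i => ?_) (fun i a b => ?_)
  · exact zero_mul _
  · exact add_mul _ _ _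

theorem wW_single (i : ℕ) : wW (Finsupp.single i 1) = i + 1 := by
  unfold wW
  rw [Finsupp.sum_single_index (zero_mul _), one_mul]

theorem wW_sub {s : ℕ →₀ ℕ} {i : ℕ} (h : i ∈ s.support) :
    wW s = wW (s - Finsupp.single i 1) + (i + 1) := by
  have h1 : s - Finsupp.single i 1 + Finsupp.single i 1 = s := by
    apply tsub_add_cancel_of_le
    rw [Finsupp.single_le_iff]
    exact Nat.one_le_iff_ne_zero.2 (Finsupp.mem_support_iff.1 h)
  conv_lhs => rw [← h1]
  rw [wW_add, wW_single]

theorem wW_eq_zero {s : ℕ →₀ ℕ} (h : wW s = 0) : s = 0 := by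
  by_contra hs
  obtain ⟨i, hi⟩ := Finsupp.support_nonempty_iff.2 hs
  have := wW_sub hi
  omega

theorem wW_eq_one {s : ℕ →₀ ℕ} (h : wW s = 1) : s = Finsupp.single 0 1 := by
  have hs : s ≠ 0 := by
    rintro rfl
    rw [wW_zero] at h
    omega
  obtain ⟨i, hi⟩ := Finsupp.support_nonempty_iff.2 hs
  have h1 := wW_sub hi
  have hi0 : i = 0 := by omega
  subst hi0
  have h2 : s - Finsupp.single 0 1 = 0 := wW_eq_zero (by omega)
  have h3 : s - Finsupp.single 0 1 + Finsupp.single 0 1 = s := by
    apply tsub_add_cancel_of_le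
    rw [Finsupp.single_le_iff]
    exact Nat.one_le_iff_ne_zero.2 (Finsupp.mem_support_iff.1 hi)
  rw [h2, zero_add] at h3
  exact h3.symm

theorem NN_X (i : ℕ) : NN (X i) = C ((i : ℂ) + 1) * X i := by
  unfold NN
  exact mkDerivation_X _ _ _

theorem NN_C (a : ℂ) : NN (C a) = 0 := MvPolynomial.derivation_C NN a

theorem NN_coeff (p : PP) : ∀ s : ℕ →₀ ℕ, coeff s (NN p) = (wW s : ℂ) * coeff s p := by
  induction p using MvPolynomial.induction_on with
  | C a =>
    intro s
    rw [NN_C, coeff_zero, coeff_C]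
    split_ifs with h
    · rw [← h, wW_zero, Nat.cast_zero, zero_mul]
    · rw [mul_zero]
  | add p q hp hq =>
    intro s
    rw [map_add, coeff_add, coeff_add, hp, hq, mul_add]
  | mul_X p i hp =>
    intro s
    rw [Derivation.leibniz, NN_X, smul_eq_mul, smul_eq_mul]
    have e : p * (C ((i : ℂ) + 1) * X i) + X i * NN p =
        C ((i : ℂ) + 1) * (p * X i) + NN p * X i := by ring
    rw [e, coeff_add, coeff_C_mul, coeff_mul_X', coeff_mul_X']
    split_ifs with h
    · rw [hp, wW_sub h]
      push_cast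
      ring
    · ring

theorem WW_apply (v : VV) (k : ℤ) : (WW v) k = NN (v k) + ((k : ℂ) ^ 2 - k) • v k := by
  induction v using Finsupp.induction_linear with
  | zero => simp
  | add f g hf hg =>
    rw [map_add, Finsupp.add_apply, hf, hg, Finsupp.add_apply, map_add, smul_add]
    abel
  | single j p =>
    rw [WW_single]
    by_cases h : j = k
    · subst h
      rw [Finsupp.single_eq_same, Finsupp.single_eq_same]
    · rw [Finsupp.single_eq_of_ne (Ne.symm h), Finsupp.single_eq_of_ne (Ne.symm h), map_zero,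
        smul_zero, add_zero]

theorem h0_apply (v : VV) (k : ℤ) : (hOp 0 v) k = (2 * (k : ℂ)) • v k := by
  induction v using Finsupp.induction_linear with
  | zero => simp
  | add f g hf hg =>
    rw [map_add, Finsupp.add_apply, hf, hg, Finsupp.add_apply, smul_add]
  | single j p =>
    rw [hOp_zero]
    by_cases h : j = k
    · subst h
      rw [Finsupp.single_eq_same, Finsupp.single_eq_same]
    · rw [Finsupp.single_eq_of_ne (Ne.symm h), Finsupp.single_eq_of_ne (Ne.symm h), smul_zero]

/-- the coordinates of an eigenvector -/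
theorem eig {v : VV} {c : ℤ} (h : WW v = (c : ℂ) • v) (k : ℤ) (s : ℕ →₀ ℕ)
    (hne : coeff s (v k) ≠ 0) : (wW s : ℤ) + (k ^ 2 - k) = c := by
  have h1 : coeff s ((WW v) k) = coeff s (((c : ℂ) • v) k) := by rw [h]
  rw [WW_apply, Finsupp.smul_apply, coeff_add, NN_coeff, coeff_smul, coeff_smul, smul_eq_mul,
    smul_eq_mul] at h1
  have h2 : ((wW s : ℂ) + ((k : ℂ) ^ 2 - k) - c) * coeff s (v k) = 0 := by linear_combination h1
  have h3 := (mul_eq_zero.1 h2).resolve_right hne
  have h4 : (((wW s : ℤ) + (k ^ 2 - k) - c : ℤ) : ℂ) = 0 := by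
    push_cast
    exact h3
  have h5 := Int.cast_eq_zero.1 h4
  omega

theorem ev (k : ℤ) : k = 0 ∨ k = 1 ∨ 2 ≤ k ^ 2 - k := by
  rcases lt_trichotomy k 0 with h | h | h
  · right; right; nlinarith
  · left; exact h
  · rcases eq_or_lt_of_le (show 1 ≤ k by omega) with h' | h'
    · right; left; exact h'.symm
    · right; right; nlinarith

theorem sg_coeff (j k : ℤ) (p : PP) (s : ℕ →₀ ℕ) :
    coeff s ((Finsupp.single j p : VV) k) = if j = k then coeff s p else 0 := by
  rw [Finsupp.single_apply]
  split_ifs <;> simp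

theorem wt01 : S_WT01 := by
  refine ⟨fun v hv => ?_, fun v hv => ?_, fun v hv hv' => ?_, fun k => ?_, ?_, ?_⟩
  · have hv' : WW v = ((0 : ℤ) : ℂ) • v := by rw [hv]; simp
    refine ⟨coeff 0 (v 0), coeff 0 (v 1), ?_⟩
    refine Finsupp.ext fun k => MvPolynomial.ext _ _ fun s => ?_
    rw [Finsupp.add_apply, Finsupp.smul_apply, Finsupp.smul_apply, coeff_add, coeff_smul,
      coeff_smul, smul_eq_mul, smul_eq_mul]
    unfold ee
    rw [sg_coeff, sg_coeff, coeff_one]
    by_cases hne : coeff s (v k) = 0
    · rw [hne]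
      by_cases hs : s = 0
      · subst hs
        rcases eq_or_ne k 0 with rfl | hk
        · rw [hne]; simp
        · rcases eq_or_ne k 1 with rfl | hk1
          · rw [hne]; simp
          · rw [if_neg (Ne.symm hk), if_neg (Ne.symm hk1)]; simp
      · rw [if_neg (Ne.symm hs)]; simp
    · have h1 := eig hv' k s hne
      have h2 : 0 ≤ (wW s : ℤ) := Int.natCast_nonneg _
      rcases ev k with rfl | rfl | h3
      · have : s = 0 := wW_eq_zero (by omega)
        subst this
        simp
      · have : s = 0 := wW_eq_zero (by omega)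
        subst this
        simp
      · omega
  · have hv' : WW v = ((1 : ℤ) : ℂ) • v := by rw [hv]; simp
    refine ⟨coeff (Finsupp.single 0 1) (v 0), coeff (Finsupp.single 0 1) (v 1), ?_⟩
    refine Finsupp.ext fun k => MvPolynomial.ext _ _ fun s => ?_
    rw [Finsupp.add_apply, Finsupp.smul_apply, Finsupp.smul_apply, coeff_add, coeff_smul,
      coeff_smul, smul_eq_mul, smul_eq_mul]
    unfold al
    rw [sg_coeff, sg_coeff, coeff_X]
    by_cases hne : coeff s (v k) = 0
    · rw [hne]
      by_cases hs : s = Finsupp.single 0 1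
      · subst hs
        rcases eq_or_ne k 0 with rfl | hk
        · rw [hne]; simp
        · rcases eq_or_ne k 1 with rfl | hk1
          · rw [hne]; simp
          · rw [if_neg (Ne.symm hk), if_neg (Ne.symm hk1)]; simp
      · rw [if_neg (Ne.symm hs)]; simp
    · have h1 := eig hv' k s hne
      have h2 : 0 ≤ (wW s : ℤ) := Int.natCast_nonneg _
      rcases ev k with rfl | rfl | h3
      · have : s = Finsupp.single 0 1 := wW_eq_one (by omega)
        subst this
        simp
      · have : s = Finsupp.single 0 1 := wW_eq_one (by omega)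
        subst this
        simp
      · omega
  · have hv2 : WW v = ((2 : ℤ) : ℂ) • v := by rw [hv]; simp
    refine ⟨coeff 0 (v (-1)), ?_⟩
    refine Finsupp.ext fun k => MvPolynomial.ext _ _ fun s => ?_
    rw [Finsupp.smul_apply, coeff_smul, smul_eq_mul]
    unfold ee
    rw [sg_coeff, coeff_one]
    by_cases hne : coeff s (v k) = 0
    · rw [hne]
      by_cases hs : s = 0
      · subst hs
        rcases eq_or_ne k (-1) with rfl | hk
        · rw [hne]; simp
        · rw [if_neg (Ne.symm hk)]; simp
      · rw [if_neg (Ne.symm hs)]; simp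
    · have h0 : coeff s ((hOp 0 v) k) = coeff s (((-2 : ℂ) • v) k) := by rw [hv']
      rw [h0_apply, Finsupp.smul_apply, coeff_smul, coeff_smul, smul_eq_mul, smul_eq_mul] at h0
      have h3 : (2 * (k : ℂ) + 2) * coeff s (v k) = 0 := by linear_combination h0
      have h4 := (mul_eq_zero.1 h3).resolve_right hne
      have h5 : ((2 * k + 2 : ℤ) : ℂ) = 0 := by push_cast; exact h4
      have h6 := Int.cast_eq_zero.1 h5
      have hk : k = -1 := by omega
      subst hk
      have h1 := eig hv2 (-1) s hne
      have : s = 0 := wW_eq_zero (by omega)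
      subst this
      simp
  · unfold ee
    rw [WW_single]
    have : NN (1 : PP) = 0 := Derivation.map_one_eq_zero NN
    rw [this, zero_add, Finsupp.smul_single]
  · unfold al
    rw [WW_single, NN_X]
    congr 1
    simp
  · unfold om
    have h1 : NN (C (1 / 4) * X 0 ^ 2 + C (1 / 2) * X 1 : PP) =
        (2 : ℂ) • (C (1 / 4) * X 0 ^ 2 + C (1 / 2) * X 1 : PP) := by
      rw [map_add, Derivation.leibniz, Derivation.leibniz, NN_C, NN_C, pow_two,
        Derivation.leibniz, NN_X, NN_X, smul_eq_C_mul]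
      simp only [smul_eq_mul, mul_zero, add_zero, Nat.cast_zero, zero_add, C_1, one_mul,
        Nat.cast_one]
      have h2 : (C ((1 : ℂ) + 1) : PP) = C 2 := by norm_num
      rw [h2]
      have h3 : (C (2 : ℂ) : PP) = 2 := map_ofNat C 2
      rw [h3]
      ring
    have h2 : NN (X 1 + X 0 ^ 2 : PP) = (2 : ℂ) • (X 1 + X 0 ^ 2 : PP) := by
      rw [map_add, pow_two, Derivation.leibniz, NN_X, NN_X, smul_eq_C_mul]
      simp only [smul_eq_mul, Nat.cast_zero, zero_add, C_1, one_mul, Nat.cast_one]
      have h2 : (C ((1 : ℂ) + 1) : PP) = C 2 := by norm_num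
      rw [h2]
      have h3 : (C (2 : ℂ) : PP) = 2 := map_ofNat C 2
      rw [h3]
      ring
    have e1 : WW (Finsupp.single 0 (C (1 / 4) * X 0 ^ 2 + C (1 / 2) * X 1)) =
        (2 : ℂ) • Finsupp.single (0 : ℤ) (C (1 / 4) * X 0 ^ 2 + C (1 / 2) * X 1 : PP) := by
      rw [WW_single, h1, Finsupp.smul_single]
      congr 1
      simp
    have e2 : WW (Finsupp.single 1 (X 1 + X 0 ^ 2)) =
        (2 : ℂ) • Finsupp.single (1 : ℤ) (X 1 + X 0 ^ 2 : PP) := by
      rw [WW_single, h2, Finsupp.smul_single]
      congr 1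
      simp
    rw [map_add, e1, e2, smul_add]

end Pool.Agent.W685.VO
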